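import Mathlib

/-!
# MP_e522d8_an, Q1 (type A): a bounded value set does not imply convergence

The counterexample is the compact set `E0` of all `a` with `4 a = -1 - t ^ 4 + g i`,
`0 ≤ t ≤ 1 / 6`, `2 t ^ 5 ≤ g ≤ 1`, which touches the critical point `-1 / 4`.

* Bounded values.  In the coordinate `ρ = 2 w + 1` the map `s_a` is
  `ρ ↦ (4 a + 1 + ρ) / (1 + ρ)`, and for `a ∈ E0` it maps the region
  `Im ρ ≥ 0`, `Re ρ < 0 → Im ρ ≥ (Re ρ) ^ 2 / 4` into itself (`Om_inv`).  The region contains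
  the start `ρ = 1` and stays at distance `≥ 1 / 16` from the pole `ρ = -1`, so that all values
  are bounded by `24` (`bounded_E0`).
* A divergent continued fraction.  With `M_j = 10000 + j`, `κ_j` about `2 / √M_j` and
  `μ_j = (M_j + κ_j + i) / (M_j - κ_j - i)` put
  `a_j = - μ_{j+1} (μ_{j+2} - 1) (μ_j - 1) / ((μ_j μ_{j+1} - 1) (μ_{j+1} μ_{j+2} - 1))`.
  Then `a_j ∈ E0` (`el_mem`), and the approximants are a fixed nonconstant Moebius image of the
  products `μ_1 ⋯ μ_{n+1}` (`approx_eq`), whose moduli stay between `1` and `2` while their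
  arguments grow like `2 log n`; so they do not converge (`not_conv`).
-/

set_option autoImplicit false

namespace Pool.Agent.Results.MP_e522d8_an.TypeA

open Filter Topology Complex

/-- The map `s_a(w) = a / (1 + w)` on the Riemann sphere `OnePoint ℂ`, with the conventions
`c / 0 = ∞` for `c ≠ 0`, `c / ∞ = 0`, and `s_0 = 0` identically. -/
noncomputable def step (a : ℂ) (w : OnePoint ℂ) : OnePoint ℂ :=
  w.elim ((0 : ℂ) : OnePoint ℂ) fun z =>
    if a = 0 then ((0 : ℂ) : OnePoint ℂ)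
    else if 1 + z = 0 then OnePoint.infty
    else ((a / (1 + z) : ℂ) : OnePoint ℂ)

/-- The value of the finite type-A continued fraction whose elements are the list `L`:
`s_{a_1} ∘ ⋯ ∘ s_{a_n} (0)`. -/
noncomputable def cfValue (L : List ℂ) : OnePoint ℂ := L.foldr step ((0 : ℂ) : OnePoint ℂ)

/-- The `n`-th approximant of the infinite type-A continued fraction with elements
`a 0, a 1, a 2, …` (these are `a_1, a_2, a_3, …` of the problem). -/
noncomputable def approximant (a : ℕ → ℂ) (n : ℕ) : OnePoint ℂ := cfValue ((List.range n).map a)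

/-- The value set `V_A(E)`. -/
def ValueSet (E : Set ℂ) : Set (OnePoint ℂ) :=
  {v | ∃ L : List ℂ, L ≠ [] ∧ (∀ x ∈ L, x ∈ E) ∧ v = cfValue L}

/-- The value set is a bounded subset of `ℂ` (in particular `∞` is not a value). -/
def BoundedValues (E : Set ℂ) : Prop :=
  ∃ R : ℝ, ∀ v ∈ ValueSet E, ∃ z : ℂ, v = (z : OnePoint ℂ) ∧ ‖z‖ ≤ R

/-- The infinite continued fraction converges to a finite limit. -/
def Converges (a : ℕ → ℂ) : Prop :=
  ∃ l : ℂ, Tendsto (approximant a) atTop (𝓝 (l : OnePoint ℂ))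

/-- `E` is a type-A convergence set. -/
def IsConvergenceSet (E : Set ℂ) : Prop := ∀ a : ℕ → ℂ, (∀ n, a n ∈ E) → Converges a

/-- Sanity check: the value of the one term continued fraction is its element. -/
lemma cfValue_singleton (a : ℂ) : cfValue [a] = (a : OnePoint ℂ) := by
  show step a ((0 : ℂ) : OnePoint ℂ) = _
  unfold step
  show (if a = 0 then ((0 : ℂ) : OnePoint ℂ) else if 1 + (0 : ℂ) = 0 then OnePoint.infty
      else ((a / (1 + 0) : ℂ) : OnePoint ℂ)) = _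
  by_cases ha : a = 0
  · rw [if_pos ha, ha]
  · rw [if_neg ha, if_neg (by norm_num), add_zero, div_one]

/-! ### The set `E` and the invariant region -/

/-- The counterexample set. -/
def E0 : Set ℂ :=
  {a | ∃ t g : ℝ, 0 ≤ t ∧ t ≤ 1 / 6 ∧ 2 * t ^ 5 ≤ g ∧ g ≤ 1 ∧ 4 * a = -1 - (t : ℂ) ^ 4 + (g : ℂ) * I}

/-- the invariant region in the coordinate `ρ = 2 w + 1`. -/
def Om : Set ℂ := {r | 0 ≤ r.im ∧ (r.re < 0 → r.re ^ 2 / 4 ≤ r.im)}

lemma poly_ineq {x t : ℝ} (hx : 0 ≤ x) (ht : 0 ≤ t) (ht1 : t ≤ 1 / 6) :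
    x * t ^ 4 / 2 + t ^ 8 / 4 ≤ x ^ 5 / 64 + t ^ 5 := by
  have e : x ^ 5 + 4 * (8 / 5) ^ 5 * t ^ 5 - 5 * (8 / 5) ^ 4 * t ^ 4 * x =
      (x - 8 / 5 * t) ^ 2 * (x ^ 3 + 2 * (8 / 5) * t * x ^ 2 + 3 * (8 / 5) ^ 2 * t ^ 2 * x + 4 * (8 / 5) ^ 3 * t ^ 3) := by
    ring
  have h1 : 0 ≤ x ^ 5 + 4 * (8 / 5) ^ 5 * t ^ 5 - 5 * (8 / 5) ^ 4 * t ^ 4 * x := by
    rw [e]; positivity
  have h2 : t ^ 8 ≤ (1 / 6) ^ 3 * t ^ 5 := by
    have : t ^ 3 ≤ (1 / 6) ^ 3 := pow_le_pow_left₀ ht ht1 3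
    calc t ^ 8 = t ^ 3 * t ^ 5 := by ring
      _ ≤ (1 / 6) ^ 3 * t ^ 5 := mul_le_mul_of_nonneg_right this (by positivity)
  have h3 : 0 ≤ t ^ 4 * x := by positivity
  have h4 : 0 ≤ t ^ 5 := by positivity
  nlinarith

/-- main real inequality for the left part of the region -/
lemma left_ineq {x v t g : ℝ} (hx : 0 < x) (hx1 : x < 1) (hv : x ^ 2 / 4 ≤ v) (ht : 0 ≤ t)
    (ht1 : t ≤ 1 / 6) (hg : 2 * t ^ 5 ≤ g)
    (hZ : 0 < (1 - x) * (x + t ^ 4) - v ^ 2) :
    ((1 - x) * (x + t ^ 4) - v ^ 2) ^ 2 / 4 ≤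
      ((1 - x) ^ 2 + v ^ 2) * (v * (1 + t ^ 4) + g * (1 - x)) := by
  set u := 1 - x with hu
  set b := t ^ 4 with hb
  have hu0 : 0 < u := by linarith
  have hb0 : 0 ≤ b := by positivity
  have hv0 : 0 < v := lt_of_lt_of_le (by positivity) hv
  have hg0 : 0 ≤ g := le_trans (by positivity) hg
  -- Z^2 ≤ u (x+b) * (u (x+b) - v^2)
  have h1 : (u * (x + b) - v ^ 2) ^ 2 ≤ (u * (x + b) - v ^ 2) * (u * (x + b)) := by
    rw [pow_two]
    apply mul_le_mul_of_nonneg_left _ hZ.le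
    nlinarith [sq_nonneg v]
  -- key inequality
  have key : u ^ 2 * (2 * x * b + b ^ 2) / 4 ≤ v ^ 3 + g * u ^ 3 + u * (x + b) * v ^ 2 / 4 := by
    have hv2 : (x ^ 2 / 4) ^ 2 ≤ v ^ 2 := pow_le_pow_left₀ (by positivity) hv 2
    have hv3 : (x ^ 2 / 4) ^ 3 ≤ v ^ 3 := pow_le_pow_left₀ (by positivity) hv 3
    have h5 : x ^ 5 / 64 ≤ v ^ 3 + u * (x + b) * v ^ 2 / 4 := by
      have h6 : u * x * (x ^ 2 / 4) ^ 2 / 4 ≤ u * (x + b) * v ^ 2 / 4 := by
        have : u * x * (x ^ 2 / 4) ^ 2 ≤ u * (x + b) * v ^ 2 := by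
          apply mul_le_mul _ hv2 (by positivity) (by positivity)
          nlinarith
        linarith
      have h7 : x ^ 5 / 64 = (x ^ 2 / 4) ^ 3 + u * x * (x ^ 2 / 4) ^ 2 / 4 := by
        rw [hu]; ring
      linarith
    rcases le_or_gt x (1 / 2) with hx2 | hx2
    · have hu2 : 1 / 2 ≤ u := by linarith
      have hp := poly_ineq hx.le ht ht1
      have h8 : t ^ 5 ≤ g * u := by
        have q := mul_le_mul_of_nonneg_left hu2 hg0
        linarith
      have h9 : u ^ 2 * (2 * x * b + b ^ 2) / 4 ≤ u ^ 2 * (x ^ 5 / 64 + g * u) := by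
        have : (2 * x * b + b ^ 2) / 4 ≤ x ^ 5 / 64 + g * u := by
          have e8 : b ^ 2 = t ^ 8 := by rw [hb]; ring
          rw [e8]
          linarith
        have h10 := mul_le_mul_of_nonneg_left this (sq_nonneg u)
        linarith
      have h11 : u ^ 2 * (x ^ 5 / 64) ≤ x ^ 5 / 64 := by
        have h10 : u ^ 2 ≤ 1 := pow_le_one₀ hu0.le (by linarith)
        have h12 : 0 ≤ x ^ 5 / 64 := by positivity
        have q := mul_le_mul_of_nonneg_right h10 h12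
        linarith
      have h13 : u ^ 2 * (x ^ 5 / 64 + g * u) = u ^ 2 * (x ^ 5 / 64) + g * u ^ 3 := by ring
      linarith
    · have hb1 : b ≤ 1 / 1296 := by
        have : t ^ 4 ≤ (1 / 6) ^ 4 := pow_le_pow_left₀ ht ht1 4
        rw [hb]; linarith
      have hu2 : u ≤ 1 / 2 := by linarith
      have h14 : (1 / 2 : ℝ) ^ 5 ≤ x ^ 5 := pow_le_pow_left₀ (by norm_num) hx2.le 5
      have h15 : u ^ 2 ≤ 1 / 4 := by
        have q := pow_le_pow_left₀ hu0.le hu2 2
        norm_num at q ⊢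
        linarith
      have h16 : 2 * x * b + b ^ 2 ≤ 1 / 400 := by
        have q1 : x * b ≤ 1 * (1 / 1296) := mul_le_mul hx1.le hb1 hb0 (by norm_num)
        have q2 : b ^ 2 ≤ (1 / 1296) ^ 2 := pow_le_pow_left₀ hb0 hb1 2
        have q3 : 2 * x * b = 2 * (x * b) := by ring
        rw [q3]
        norm_num at q1 q2 ⊢
        linarith
      have h17 : 0 ≤ 2 * x * b + b ^ 2 := by positivity
      have h18 : u ^ 2 * (2 * x * b + b ^ 2) ≤ 1 / 4 * (1 / 400) := by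
        apply mul_le_mul h15 h16 h17 (by norm_num)
      have h19 : 0 ≤ g * u ^ 3 := by positivity
      norm_num at h14 h18
      linarith
  have h20 : u ^ 2 * (x ^ 2 / 4) ≤ u ^ 2 * v := mul_le_mul_of_nonneg_left hv (sq_nonneg u)
  have h21 : 0 ≤ g * u * v ^ 2 := by positivity
  have h22 : 0 ≤ (u ^ 2 + v ^ 2) * (v * b) := by positivity
  have e1 : (u * (x + b) - v ^ 2) * (u * (x + b)) = 4 * (u ^ 2 * (x ^ 2 / 4)) + u ^ 2 * (2 * x * b + b ^ 2)
      - u * (x + b) * v ^ 2 := by ring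
  have e2 : (u ^ 2 + v ^ 2) * (v * (1 + b) + g * u) = u ^ 2 * v + v ^ 3 + (u ^ 2 + v ^ 2) * (v * b) +
      g * u ^ 3 + g * u * v ^ 2 := by ring
  rw [e2]
  rw [e1] at h1
  linarith

/-- The region is mapped into itself. -/
lemma Om_inv {a r : ℂ} (ha : a ∈ E0) (hr : r ∈ Om) : (4 * a + 1 + r) / (1 + r) ∈ Om := by
  obtain ⟨t, g, ht, ht1, hg, hg1, ha4⟩ := ha
  obtain ⟨hr1, hr2⟩ := hr
  set x := r.re with hx
  set v := r.im with hv
  have hg0 : 0 ≤ g := le_trans (by positivity) hg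
  have hb0 : 0 ≤ t ^ 4 := by positivity
  have hN : 0 < (1 + x) ^ 2 + v ^ 2 := by
    rcases le_or_gt 0 x with h | h
    · nlinarith [sq_nonneg v]
    · have h1 := hr2 h
      have h2 : 0 < v := lt_of_lt_of_le (by have := sq_pos_of_neg h; positivity) h1
      have h3 : 0 < v ^ 2 := by positivity
      linarith [sq_nonneg (1 + x)]
  have hrr : r = (x : ℂ) + (v : ℂ) * I := (Complex.re_add_im r).symm
  have e : (4 * a + 1 + r) / (1 + r) =
      (((((x - t ^ 4) * (1 + x) + (v + g) * v) / ((1 + x) ^ 2 + v ^ 2) : ℝ)) : ℂ) +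
      ((((v * (1 + t ^ 4) + g * (1 + x)) / ((1 + x) ^ 2 + v ^ 2) : ℝ)) : ℂ) * I := by
    have hne : 1 + r ≠ 0 := by
      intro h
      have h1 := congrArg Complex.re h
      have h2 := congrArg Complex.im h
      simp at h1 h2
      rw [← hx] at h1
      rw [← hv] at h2
      rw [h1, h2] at hN
      norm_num at hN
    have hNC : ((1 + (x : ℂ)) ^ 2 + (v : ℂ) ^ 2) ≠ 0 := by
      have : (((1 + x) ^ 2 + v ^ 2 : ℝ) : ℂ) ≠ 0 := by exact_mod_cast hN.ne'
      push_cast at this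
      exact this
    rw [div_eq_iff hne, ha4]
    push_cast
    field_simp
    rw [hrr]
    have hI : I ^ 2 = -1 := Complex.I_sq
    ring_nf
    simp only [hI]
    ring
  rw [e]
  have hre : ((((((x - t ^ 4) * (1 + x) + (v + g) * v) / ((1 + x) ^ 2 + v ^ 2) : ℝ)) : ℂ) +
      ((((v * (1 + t ^ 4) + g * (1 + x)) / ((1 + x) ^ 2 + v ^ 2) : ℝ)) : ℂ) * I).re =
      ((x - t ^ 4) * (1 + x) + (v + g) * v) / ((1 + x) ^ 2 + v ^ 2) := by
    simp only [Complex.add_re, Complex.ofReal_re, Complex.mul_re, Complex.I_re, Complex.ofReal_im, Complex.I_im]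
    ring
  have him : ((((((x - t ^ 4) * (1 + x) + (v + g) * v) / ((1 + x) ^ 2 + v ^ 2) : ℝ)) : ℂ) +
      ((((v * (1 + t ^ 4) + g * (1 + x)) / ((1 + x) ^ 2 + v ^ 2) : ℝ)) : ℂ) * I).im =
      (v * (1 + t ^ 4) + g * (1 + x)) / ((1 + x) ^ 2 + v ^ 2) := by
    simp only [Complex.add_im, Complex.ofReal_im, Complex.mul_im, Complex.I_re, Complex.ofReal_re, Complex.I_im]
    ring
  have hnum : 0 ≤ v * (1 + t ^ 4) + g * (1 + x) := by
    rcases le_or_gt (-1) x with h | h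
    · have : 0 ≤ 1 + x := by linarith
      positivity
    · have h1 := hr2 (by linarith)
      nlinarith [mul_nonneg hr1 hb0, sq_nonneg (x / 2 + 1), mul_nonneg (sub_nonneg.mpr hg1) (show 0 ≤ -(1 + x) by linarith)]
  refine ⟨?_, ?_⟩
  · rw [him]
    positivity
  · rw [hre, him]
    intro hneg
    rw [div_pow]
    rw [div_lt_iff₀ hN, zero_mul] at hneg
    -- Z = (t^4 - x)(1+x) - (v+g) v > 0
    have hZ : 0 < (t ^ 4 - x) * (1 + x) - (v + g) * v := by linarith
    have hvg : 0 ≤ (v + g) * v := by positivity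
    have hpos : 0 < (t ^ 4 - x) * (1 + x) := by linarith
    have h1x : 0 < 1 + x := by
      by_contra hcon
      push Not at hcon
      have q0 : 0 < t ^ 4 - x := by linarith
      have q := mul_nonneg q0.le (neg_nonneg.mpr hcon)
      linarith
    have hsq : ((x - t ^ 4) * (1 + x) + (v + g) * v) ^ 2 = ((t ^ 4 - x) * (1 + x) - (v + g) * v) ^ 2 := by ring
    rw [hsq]
    suffices hs : ((t ^ 4 - x) * (1 + x) - (v + g) * v) ^ 2 / 4 ≤
        ((1 + x) ^ 2 + v ^ 2) * (v * (1 + t ^ 4) + g * (1 + x)) by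
      have q1 : ((t ^ 4 - x) * (1 + x) - (v + g) * v) ^ 2 / ((1 + x) ^ 2 + v ^ 2) ^ 2 / 4 =
          (((t ^ 4 - x) * (1 + x) - (v + g) * v) ^ 2 / 4) / ((1 + x) ^ 2 + v ^ 2) ^ 2 := by ring
      have q2 : (v * (1 + t ^ 4) + g * (1 + x)) / ((1 + x) ^ 2 + v ^ 2) =
          (((1 + x) ^ 2 + v ^ 2) * (v * (1 + t ^ 4) + g * (1 + x))) / ((1 + x) ^ 2 + v ^ 2) ^ 2 := by
        field_simp
      rw [q1, q2]
      exact div_le_div_of_nonneg_right hs (by positivity)
    have hZle : (t ^ 4 - x) * (1 + x) - (v + g) * v ≤ (1 + x) * (-x + t ^ 4) - v ^ 2 := by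
      have q := mul_nonneg hg0 hr1
      have q2 : (t ^ 4 - x) * (1 + x) - (v + g) * v = (1 + x) * (-x + t ^ 4) - v ^ 2 - g * v := by ring
      rw [q2]
      linarith
    have hZsq : ((t ^ 4 - x) * (1 + x) - (v + g) * v) ^ 2 ≤ ((1 + x) * (-x + t ^ 4) - v ^ 2) ^ 2 :=
      pow_le_pow_left₀ hZ.le hZle 2
    rcases le_or_gt 0 x with hx0 | hx0
    · -- right part
      have hxb : x < t ^ 4 := by
        have : 0 < t ^ 4 - x := by
          by_contra hcon
          push Not at hcon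
          have q := mul_nonneg (neg_nonneg.mpr hcon) h1x.le
          linarith
        linarith
      have ht8 : t ^ 8 ≤ t ^ 5 := by
        have : t ^ 3 ≤ 1 := pow_le_one₀ ht (by linarith)
        calc t ^ 8 = t ^ 3 * t ^ 5 := by ring
          _ ≤ 1 * t ^ 5 := mul_le_mul_of_nonneg_right this (by positivity)
          _ = t ^ 5 := one_mul _
      have h3 : ((1 + x) * (-x + t ^ 4) - v ^ 2) ^ 2 ≤ ((1 + x) * t ^ 4) ^ 2 := by
        apply pow_le_pow_left₀ (by linarith)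
        have q1 := mul_nonneg h1x.le hx0
        have q2 : (1 + x) * (-x + t ^ 4) = (1 + x) * t ^ 4 - (1 + x) * x := by ring
        rw [q2]
        linarith [sq_nonneg v]
      have h4 : ((1 + x) * t ^ 4) ^ 2 = (1 + x) ^ 2 * t ^ 8 := by ring
      have h5 : (1 + x) ^ 2 * t ^ 8 / 4 ≤ (1 + x) ^ 2 * g := by
        have q : t ^ 8 / 4 ≤ g := by
          have : 0 ≤ t ^ 5 := by positivity
          linarith
        have q2 := mul_le_mul_of_nonneg_left q (sq_nonneg (1 + x))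
        linarith
      have h6 : (1 + x) ^ 2 * g ≤ ((1 + x) ^ 2 + v ^ 2) * (v * (1 + t ^ 4) + g * (1 + x)) := by
        have h7 : g ≤ v * (1 + t ^ 4) + g * (1 + x) := by
          have : 0 ≤ v * (1 + t ^ 4) := by positivity
          have : 0 ≤ g * x := by positivity
          linarith
        have h8 : (1 + x) ^ 2 ≤ (1 + x) ^ 2 + v ^ 2 := by linarith [sq_nonneg v]
        exact mul_le_mul h8 h7 hg0 (by positivity)
      linarith
    · have h1 := left_ineq (x := -x) (v := v) (t := t) (g := g) (by linarith) (by linarith)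
        (by have := hr2 hx0; rw [neg_sq]; exact this) ht ht1 hg
        (by
          have e1 : (1 - -x) * (-x + t ^ 4) - v ^ 2 = (1 + x) * (-x + t ^ 4) - v ^ 2 := by ring
          rw [e1]; linarith)
      have e1 : (1 - -x) = 1 + x := by ring
      rw [e1] at h1
      linarith

lemma Om_norm {r : ℂ} (hr : r ∈ Om) : 1 / 16 ≤ ‖1 + r‖ := by
  obtain ⟨hr1, hr2⟩ := hr
  rcases le_or_gt (-1 / 2) r.re with h | h
  · have h1 := Complex.abs_re_le_norm (1 + r)
    have h2 := le_abs_self (1 + r).re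
    simp only [Complex.add_re, Complex.one_re] at h1 h2
    linarith
  · have h1 := hr2 (by linarith)
    have h2 := Complex.abs_im_le_norm (1 + r)
    have h3 := le_abs_self (1 + r).im
    simp only [Complex.add_im, Complex.one_im, zero_add] at h2 h3
    nlinarith

/-- finite values: for `w` in the region, a step gives a finite value in the region -/
lemma step_Om {a w : ℂ} (ha : a ∈ E0) (hw : 2 * w + 1 ∈ Om) :
    1 + w ≠ 0 ∧ step a (w : OnePoint ℂ) = ((a / (1 + w) : ℂ) : OnePoint ℂ) ∧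
      2 * (a / (1 + w)) + 1 ∈ Om ∧ ‖a / (1 + w)‖ ≤ 24 := by
  have hn := Om_norm hw
  have e1 : 1 + (2 * w + 1) = 2 * (1 + w) := by ring
  rw [e1, norm_mul] at hn
  have h2 : ‖(2 : ℂ)‖ = 2 := by simp
  rw [h2] at hn
  have hne : 1 + w ≠ 0 := by
    intro h
    rw [h, norm_zero] at hn
    norm_num at hn
  have hinv := Om_inv ha hw
  have e2 : (4 * a + 1 + (2 * w + 1)) / (1 + (2 * w + 1)) = 2 * (a / (1 + w)) + 1 := by
    rw [e1]; field_simp; ring
  rw [e2] at hinv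
  refine ⟨hne, ?_, hinv, ?_⟩
  · unfold step
    show (if a = 0 then ((0 : ℂ) : OnePoint ℂ) else if 1 + w = 0 then OnePoint.infty
      else ((a / (1 + w) : ℂ) : OnePoint ℂ)) = _
    by_cases ha0 : a = 0
    · rw [if_pos ha0, ha0, zero_div]
    · rw [if_neg ha0, if_neg hne]
  · obtain ⟨t, g, ht, ht1, hg, hg1, ha4⟩ := ha
    have hg0 : 0 ≤ g := le_trans (by positivity) hg
    have h4 : ‖4 * a‖ ≤ 3 := by
      rw [ha4]
      calc ‖-1 - (t : ℂ) ^ 4 + (g : ℂ) * I‖ ≤ ‖-1 - (t : ℂ) ^ 4‖ + ‖(g : ℂ) * I‖ := norm_add_le _ _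
        _ ≤ (‖(-1 : ℂ)‖ + ‖(t : ℂ) ^ 4‖) + ‖(g : ℂ) * I‖ := by
            gcongr; exact norm_sub_le _ _
        _ ≤ (1 + 1) + 1 := by
            rw [norm_neg, norm_one, norm_pow, Complex.norm_real, Real.norm_of_nonneg ht, norm_mul,
              Complex.norm_real, Real.norm_of_nonneg hg0, Complex.norm_I, mul_one]
            have : t ^ 4 ≤ 1 := pow_le_one₀ ht (by linarith)
            linarith
        _ = 3 := by norm_num
    rw [norm_mul] at h4
    have h5 : ‖(4 : ℂ)‖ = 4 := by simp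
    rw [h5] at h4
    rw [norm_div, div_le_iff₀ (by linarith)]
    linarith

lemma zero_Om : 2 * (0 : ℂ) + 1 ∈ Om := by
  refine ⟨by simp, ?_⟩
  intro h
  simp at h
  linarith

lemma cfValue_Om (L : List ℂ) (hL : ∀ x ∈ L, x ∈ E0) :
    ∃ w : ℂ, cfValue L = (w : OnePoint ℂ) ∧ 2 * w + 1 ∈ Om ∧ ‖w‖ ≤ 24 := by
  induction L with
  | nil => exact ⟨0, rfl, zero_Om, by simp⟩
  | cons a L ih =>
    obtain ⟨w, hw1, hw2, _⟩ := ih (fun x hx => hL x (List.mem_cons_of_mem a hx))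
    obtain ⟨_, h2, h3, h4⟩ := step_Om (hL a List.mem_cons_self) hw2
    refine ⟨a / (1 + w), ?_, h3, h4⟩
    show step a (cfValue L) = _
    rw [hw1, h2]

lemma bounded_E0 : BoundedValues E0 := by
  refine ⟨24, ?_⟩
  rintro v ⟨L, _, hL, rfl⟩
  obtain ⟨w, hw1, _, hw3⟩ := cfValue_Om L hL
  exact ⟨w, hw1, hw3⟩

/-! ### Membership of the elements -/

/-- from approximate values of real and imaginary part to membership -/
lemma mem_of_bounds {n κ : ℝ} (hn : 10000 ≤ n) (hκ : 0 < κ) (hκ1 : κ ≤ 1 / 50)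
    (hκn : 39 / 10 ≤ κ ^ 2 * n) {a : ℂ}
    (h : ‖4 * (n : ℂ) ^ 2 * (1 + 4 * a) + 5 - 8 * κ * I‖ ≤ 4 / 5 * κ) : a ∈ E0 := by
  have hn0 : 0 < n := by linarith
  set z := 1 + 4 * a with hz
  have hre := (Complex.abs_re_le_norm _).trans h
  have him := (Complex.abs_im_le_norm _).trans h
  have er : (4 * (n : ℂ) ^ 2 * z + 5 - 8 * κ * I).re = 4 * n ^ 2 * z.re + 5 := by
    have : (4 * (n : ℂ) ^ 2 * z + 5 - 8 * κ * I) = ((4 * n ^ 2 : ℝ) : ℂ) * z + ((5 : ℝ) : ℂ) - ((8 * κ : ℝ) : ℂ) * I := by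
      push_cast; ring
    rw [this]
    simp only [Complex.sub_re, Complex.add_re, Complex.re_ofReal_mul, Complex.ofReal_re, Complex.I_re, mul_zero, sub_zero]
  have ei : (4 * (n : ℂ) ^ 2 * z + 5 - 8 * κ * I).im = 4 * n ^ 2 * z.im - 8 * κ := by
    have : (4 * (n : ℂ) ^ 2 * z + 5 - 8 * κ * I) = ((4 * n ^ 2 : ℝ) : ℂ) * z + ((5 : ℝ) : ℂ) - ((8 * κ : ℝ) : ℂ) * I := by
      push_cast; ring
    rw [this]
    simp only [Complex.sub_im, Complex.add_im, Complex.im_ofReal_mul, Complex.ofReal_im, Complex.I_im, mul_one, add_zero]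
  rw [er] at hre
  rw [ei] at him
  obtain ⟨hr1, hr2⟩ := abs_le.mp hre
  obtain ⟨hi1, hi2⟩ := abs_le.mp him
  -- b = - z.re
  have hb1 : 0 ≤ -z.re := by
    by_contra hcon
    push Not at hcon
    have : 0 < 4 * n ^ 2 * z.re := by
      have : 0 < z.re := by linarith
      positivity
    linarith
  have hb2 : 4 * n ^ 2 * (-z.re) ≤ 5 + 4 / 5 * κ := by linarith
  have hg1 : 36 / 5 * κ ≤ 4 * n ^ 2 * z.im := by linarith
  have hg2 : 4 * n ^ 2 * z.im ≤ 9 * κ := by linarith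
  have hb3 : -z.re * n ^ 2 ≤ 1254 / 1000 := by linarith
  set b := -z.re with hb
  set t := Real.sqrt (Real.sqrt b) with ht
  have ht0 : 0 ≤ t := Real.sqrt_nonneg _
  have ht4 : t ^ 4 = b := by
    have e1 : t ^ 4 = (t ^ 2) ^ 2 := by ring
    rw [e1, ht, Real.sq_sqrt (Real.sqrt_nonneg _), Real.sq_sqrt hb1]
  have hk4 : (39 / 10) ^ 2 ≤ κ ^ 4 * n ^ 2 := by
    have := pow_le_pow_left₀ (by norm_num) hκn 2
    calc (39 / 10 : ℝ) ^ 2 ≤ (κ ^ 2 * n) ^ 2 := this
      _ = κ ^ 4 * n ^ 2 := by ring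
  have htk : t ≤ 7 / 10 * κ := by
    have h1 : t ^ 4 ≤ (7 / 10 * κ) ^ 4 := by
      rw [ht4]
      have hn2 : 0 < n ^ 2 := by positivity
      have : b * n ^ 2 ≤ (7 / 10 * κ) ^ 4 * n ^ 2 := by
        calc b * n ^ 2 ≤ 1254 / 1000 := hb3
          _ ≤ (7 / 10) ^ 4 * (39 / 10) ^ 2 := by norm_num
          _ ≤ (7 / 10) ^ 4 * (κ ^ 4 * n ^ 2) := by linarith
          _ = (7 / 10 * κ) ^ 4 * n ^ 2 := by ring
      exact le_of_mul_le_mul_right this hn2
    exact le_of_pow_le_pow_left₀ (by norm_num) (by positivity) h1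
  refine ⟨t, z.im, ht0, by linarith, ?_, ?_, ?_⟩
  · have e5 : 2 * t ^ 5 = 2 * (b * t) := by rw [← ht4]; ring
    rw [e5]
    have h1 : b * t ≤ b * (7 / 10 * κ) := mul_le_mul_of_nonneg_left htk hb1
    have hn2 : 0 < 4 * n ^ 2 := by positivity
    have h2 : 4 * n ^ 2 * (2 * (b * t)) ≤ 4 * n ^ 2 * z.im := by
      have h3 : 4 * n ^ 2 * (2 * (b * t)) ≤ 4 * n ^ 2 * (2 * (b * (7 / 10 * κ))) := by
        apply mul_le_mul_of_nonneg_left _ hn2.le
        linarith
      have h4 : 4 * n ^ 2 * (2 * (b * (7 / 10 * κ))) = (4 * n ^ 2 * b) * (7 / 5 * κ) := by ring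
      have h5 : (4 * n ^ 2 * b) * (7 / 5 * κ) ≤ (51 / 10) * (7 / 5 * κ) := by
        apply mul_le_mul_of_nonneg_right _ (by positivity)
        linarith
      linarith
    exact le_of_mul_le_mul_left h2 hn2
  · by_contra hcon
    push Not at hcon
    have hn2 : (10000 : ℝ) ^ 2 ≤ n ^ 2 := pow_le_pow_left₀ (by norm_num) hn 2
    have : 4 * n ^ 2 * 1 ≤ 4 * n ^ 2 * z.im := mul_le_mul_of_nonneg_left hcon.le (by positivity)
    linarith
  · have e4 : 4 * a = z - 1 := by rw [hz]; ring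
    have ez : z = (z.re : ℂ) + (z.im : ℂ) * I := (Complex.re_add_im z).symm
    have et : (t : ℂ) ^ 4 = -(z.re : ℂ) := by
      rw [← Complex.ofReal_pow, ht4, hb, Complex.ofReal_neg]
    rw [e4, et]
    nth_rewrite 1 [ez]
    ring

set_option maxHeartbeats 4000000 in
/-- the core estimate -/
lemma mem_core {n κ α β : ℝ} (hn : 10000 ≤ n) (hκ : 0 < κ) (hκ1 : κ ≤ 1 / 50)
    (hκn : 39 / 10 ≤ κ ^ 2 * n) (hα : α * (2 * n - 2) = κ) (hβ : β * (2 * n + 1) = κ)
    {T : ℂ} (hT : T = 1 - κ * I) {a : ℂ}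
    (ha : a * ((((n : ℂ) - 1) * T + n * (T - α * I)) * (n * (T + β * I) + (n + 1) * T)) =
      -((n : ℂ) ^ 2 + T ^ 2) * (T + β * I) * (T - α * I)) : a ∈ E0 := by
  apply mem_of_bounds hn hκ hκ1 hκn
  have hn0 : 0 < n := by linarith
  have hα0 : 0 < α := by
    by_contra hcon
    push Not at hcon
    have := mul_nonneg (neg_nonneg.mpr hcon) (show 0 ≤ 2 * n - 2 by linarith)
    linarith
  have hβ0 : 0 < β := by
    by_contra hcon
    push Not at hcon
    have := mul_nonneg (neg_nonneg.mpr hcon) (show 0 ≤ 2 * n + 1 by linarith)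
    linarith
  -- numeric bounds
  have b1 : n * α ≤ 501 / 1000 * κ := by
    rw [← hα]
    have : n ≤ 501 / 1000 * (2 * n - 2) := by linarith
    have := mul_le_mul_of_nonneg_left this hα0.le
    linarith
  have b2 : n * β ≤ 1 / 2 * κ := by
    rw [← hβ]
    have : n ≤ 1 / 2 * (2 * n + 1) := by linarith
    have := mul_le_mul_of_nonneg_left this hβ0.le
    linarith
  have b1' : 10000 * α ≤ 501 / 1000 * κ :=
    le_trans (mul_le_mul_of_nonneg_right hn hα0.le) b1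
  have b2' : 10000 * β ≤ 1 / 2 * κ :=
    le_trans (mul_le_mul_of_nonneg_right hn hβ0.le) b2
  have hnα0 : 0 ≤ n * α := by positivity
  have hnβ0 : 0 ≤ n * β := by positivity
  have b3 : n ^ 2 * (α * β) ≤ 501 / 1000 * κ * (1 / 2 * κ) := by
    have := mul_le_mul b1 b2 hnβ0 (by positivity)
    calc n ^ 2 * (α * β) = n * α * (n * β) := by ring
      _ ≤ _ := this
  have hκ2 : κ * κ ≤ 1 / 50 * κ := mul_le_mul_of_nonneg_right hκ1 hκ.le
  have hκn2 : 195 ≤ κ * n := by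
    have : κ * κ * n ≤ 1 / 50 * κ * n := mul_le_mul_of_nonneg_right hκ2 hn0.le
    have e : κ ^ 2 * n = κ * κ * n := by ring
    rw [e] at hκn
    linarith
  have hTn : ‖T‖ ^ 2 = 1 + κ ^ 2 := by
    rw [hT, ← Complex.normSq_eq_norm_sq, Complex.normSq_apply]
    simp only [Complex.sub_re, Complex.one_re, Complex.mul_re, Complex.ofReal_re, Complex.I_re, mul_zero,
      Complex.ofReal_im, Complex.I_im, mul_one, sub_self, sub_zero, Complex.sub_im, Complex.one_im,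
      Complex.mul_im, add_zero, zero_sub]
    ring
  have hT1 : 1 ≤ ‖T‖ := by
    by_contra hcon
    push Not at hcon
    have : ‖T‖ ^ 2 < 1 := pow_lt_one₀ (norm_nonneg _) hcon (by norm_num)
    nlinarith [sq_nonneg κ]
  have hT2 : ‖T‖ ≤ 1001 / 1000 := by
    by_contra hcon
    push Not at hcon
    have h1 : (1001 / 1000 : ℝ) ^ 2 ≤ ‖T‖ ^ 2 := pow_le_pow_left₀ (by norm_num) hcon.le 2
    rw [hTn] at h1
    norm_num at h1
    nlinarith
  have hT3 : ‖T‖ ^ 2 ≤ 1002 / 1000 := by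
    rw [hTn]; nlinarith
  have hT4 : 1 ≤ ‖T‖ ^ 2 := by rw [hTn]; nlinarith [sq_nonneg κ]
  set D := (((n : ℂ) - 1) * T + n * (T - α * I)) * (n * (T + β * I) + (n + 1) * T) with hD
  have hαC : (α : ℂ) * (2 * n - 2) = κ := by exact_mod_cast congrArg (fun x : ℝ => (x : ℂ)) hα
  have hβC : (β : ℂ) * (2 * n + 1) = κ := by exact_mod_cast congrArg (fun x : ℝ => (x : ℂ)) hβ
  have hI : I ^ 2 = -1 := Complex.I_sq
  have E1 : D - 4 * (n : ℂ) ^ 2 * T ^ 2 = -T ^ 2 - n * T * I * (2 * β + 3 * α) + (n : ℂ) ^ 2 * (α * β) := by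
    rw [hD]
    linear_combination (n * T * I) * hβC - (n * T * I) * hαC - (n : ℂ) ^ 2 * α * β * hI
  have E2 : D * (1 + 4 * a) + (5 - 8 * κ * I) * T ^ 2 = n * T * α * I - 3 * (n : ℂ) ^ 2 * (α * β) +
      T ^ 2 * (4 * κ ^ 2 + 4 * I * T * (α - β) - 4 * (α * β)) := by
    have e : D * (1 + 4 * a) = D + 4 * (a * D) := by ring
    rw [e, ha]
    have e2 : D = 4 * (n : ℂ) ^ 2 * T ^ 2 - T ^ 2 - n * T * I * (2 * β + 3 * α) + (n : ℂ) ^ 2 * (α * β) := by
      linear_combination E1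
    rw [e2]
    have e3 : T ^ 2 = 1 - 2 * κ * I - κ ^ 2 := by
      rw [hT]; linear_combination (κ : ℂ) ^ 2 * hI
    linear_combination (4 * (n : ℂ) ^ 2 + 4 * T ^ 2) * α * β * hI - 4 * T ^ 2 * e3
      + (2 * n * T * I) * hαC - (2 * n * T * I) * hβC
  have nα : ‖(α : ℂ)‖ = α := by rw [Complex.norm_real, Real.norm_of_nonneg hα0.le]
  have nβ : ‖(β : ℂ)‖ = β := by rw [Complex.norm_real, Real.norm_of_nonneg hβ0.le]
  have nκ : ‖(κ : ℂ)‖ = κ := by rw [Complex.norm_real, Real.norm_of_nonneg hκ.le]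
  have nn : ‖(n : ℂ)‖ = n := by rw [Complex.norm_real, Real.norm_of_nonneg hn0.le]
  have n2 : ‖(2 : ℂ)‖ = 2 := by simp
  have n3 : ‖(3 : ℂ)‖ = 3 := by simp
  have n4 : ‖(4 : ℂ)‖ = 4 := by simp
  have n5 : ‖(5 : ℂ)‖ = 5 := by simp
  have n8 : ‖(8 : ℂ)‖ = 8 := by simp
  have hαβ : α * β ≤ 1 / 10000 * κ := by
    have h1 : β ≤ 1 := by linarith
    have h2 := mul_le_mul_of_nonneg_left h1 hα0.le
    linarith
  have hαβ0 : 0 ≤ α * β := by positivity
  -- norm of D - 4 n^2 T^2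
  have N1 : ‖D - 4 * (n : ℂ) ^ 2 * T ^ 2‖ ≤ 2 := by
    rw [E1]
    calc ‖-T ^ 2 - n * T * I * (2 * β + 3 * α) + (n : ℂ) ^ 2 * (α * β)‖
        ≤ ‖-T ^ 2 - n * T * I * (2 * β + 3 * α)‖ + ‖(n : ℂ) ^ 2 * (α * β)‖ := norm_add_le _ _
      _ ≤ ‖-T ^ 2‖ + ‖n * T * I * (2 * β + 3 * α)‖ + ‖(n : ℂ) ^ 2 * (α * β)‖ := by
          gcongr; exact norm_sub_le _ _
      _ ≤ ‖T‖ ^ 2 + n * ‖T‖ * (2 * β + 3 * α) + n ^ 2 * (α * β) := by
          have q1 : ‖-T ^ 2‖ = ‖T‖ ^ 2 := by rw [norm_neg, norm_pow]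
          have q2 : ‖n * T * I * (2 * β + 3 * α)‖ ≤ n * ‖T‖ * (2 * β + 3 * α) := by
            rw [norm_mul, norm_mul, norm_mul, nn, Complex.norm_I, mul_one]
            apply mul_le_mul_of_nonneg_left _ (by positivity)
            calc ‖(2 * β + 3 * α : ℂ)‖ ≤ ‖(2 * β : ℂ)‖ + ‖(3 * α : ℂ)‖ := norm_add_le _ _
              _ = 2 * β + 3 * α := by rw [norm_mul, norm_mul, nα, nβ, n2, n3]
          have q3 : ‖(n : ℂ) ^ 2 * (α * β)‖ = n ^ 2 * (α * β) := by
            rw [norm_mul, norm_pow, nn, norm_mul, nα, nβ]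
          rw [q1, q3]
          linarith
      _ ≤ 2 := by
          have q1 : n * ‖T‖ * (2 * β + 3 * α) = ‖T‖ * (2 * (n * β) + 3 * (n * α)) := by ring
          have q2 : ‖T‖ * (2 * (n * β) + 3 * (n * α)) ≤ 1001 / 1000 * (2 * (n * β) + 3 * (n * α)) :=
            mul_le_mul_of_nonneg_right hT2 (by positivity)
          rw [q1]
          have q3 : 501 / 1000 * κ * (1 / 2 * κ) = 501 / 2000 * (κ * κ) := by ring
          rw [q3] at b3
          linarith
  have N2 : ‖D * (1 + 4 * a) + (5 - 8 * κ * I) * T ^ 2‖ ≤ 3 / 5 * κ := by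
    rw [E2]
    calc ‖n * T * α * I - 3 * (n : ℂ) ^ 2 * (α * β) + T ^ 2 * (4 * κ ^ 2 + 4 * I * T * (α - β) - 4 * (α * β))‖
        ≤ ‖n * T * α * I - 3 * (n : ℂ) ^ 2 * (α * β)‖ +
            ‖T ^ 2 * (4 * κ ^ 2 + 4 * I * T * (α - β) - 4 * (α * β))‖ := norm_add_le _ _
      _ ≤ ‖n * T * α * I‖ + ‖3 * (n : ℂ) ^ 2 * (α * β)‖ +
            ‖T ^ 2 * (4 * κ ^ 2 + 4 * I * T * (α - β) - 4 * (α * β))‖ := by
          gcongr; exact norm_sub_le _ _
      _ ≤ ‖T‖ * (n * α) + 3 * (n ^ 2 * (α * β)) +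
            ‖T‖ ^ 2 * (4 * (κ * κ) + 4 * ‖T‖ * (α + β) + 4 * (α * β)) := by
          have q1 : ‖n * T * α * I‖ = ‖T‖ * (n * α) := by
            rw [norm_mul, norm_mul, norm_mul, nn, nα, Complex.norm_I]; ring
          have q2 : ‖3 * (n : ℂ) ^ 2 * (α * β)‖ = 3 * (n ^ 2 * (α * β)) := by
            rw [norm_mul, norm_mul, norm_pow, nn, norm_mul, nα, nβ, n3]; ring
          have q3 : ‖T ^ 2 * (4 * κ ^ 2 + 4 * I * T * (α - β) - 4 * (α * β))‖ ≤
              ‖T‖ ^ 2 * (4 * (κ * κ) + 4 * ‖T‖ * (α + β) + 4 * (α * β)) := by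
            rw [norm_mul, norm_pow]
            apply mul_le_mul_of_nonneg_left _ (by positivity)
            calc ‖(4 * κ ^ 2 + 4 * I * T * (α - β) - 4 * (α * β) : ℂ)‖
                ≤ ‖(4 * κ ^ 2 + 4 * I * T * (α - β) : ℂ)‖ + ‖(4 * (α * β) : ℂ)‖ := norm_sub_le _ _
              _ ≤ ‖(4 * κ ^ 2 : ℂ)‖ + ‖(4 * I * T * (α - β) : ℂ)‖ + ‖(4 * (α * β) : ℂ)‖ := by
                  gcongr; exact norm_add_le _ _
              _ ≤ 4 * (κ * κ) + 4 * ‖T‖ * (α + β) + 4 * (α * β) := by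
                  have w1 : ‖(4 * κ ^ 2 : ℂ)‖ = 4 * (κ * κ) := by
                    rw [norm_mul, norm_pow, nκ, n4]; ring
                  have w2 : ‖(4 * I * T * (α - β) : ℂ)‖ ≤ 4 * ‖T‖ * (α + β) := by
                    rw [norm_mul, norm_mul, norm_mul, n4, Complex.norm_I, mul_one]
                    apply mul_le_mul_of_nonneg_left _ (by positivity)
                    calc ‖((α : ℂ) - β)‖ ≤ ‖(α : ℂ)‖ + ‖(β : ℂ)‖ := norm_sub_le _ _
                      _ = α + β := by rw [nα, nβ]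
                  have w3 : ‖(4 * (α * β) : ℂ)‖ = 4 * (α * β) := by
                    rw [norm_mul, norm_mul, nα, nβ, n4]
                  rw [w1, w3]
                  linarith
          rw [q1, q2]
          linarith
      _ ≤ 3 / 5 * κ := by
          have q3 : 501 / 1000 * κ * (1 / 2 * κ) = 501 / 2000 * (κ * κ) := by ring
          rw [q3] at b3
          have q1 : ‖T‖ * (n * α) ≤ 1001 / 1000 * (501 / 1000 * κ) :=
            mul_le_mul hT2 b1 hnα0 (by norm_num)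
          have q2 : 4 * ‖T‖ * (α + β) ≤ 5 * (α + β) :=
            mul_le_mul_of_nonneg_right (by linarith) (by positivity)
          have q4 : 4 * (κ * κ) + 4 * ‖T‖ * (α + β) + 4 * (α * β) ≤ 82 / 1000 * κ := by
            linarith
          have q5 : ‖T‖ ^ 2 * (4 * (κ * κ) + 4 * ‖T‖ * (α + β) + 4 * (α * β)) ≤
              1002 / 1000 * (82 / 1000 * κ) := by
            apply mul_le_mul hT3 q4 _ (by norm_num)
            positivity
          linarith
  have N3 : 4 * n ^ 2 - 2 ≤ ‖D‖ := by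
    have h1 : ‖4 * (n : ℂ) ^ 2 * T ^ 2‖ = 4 * n ^ 2 * ‖T‖ ^ 2 := by
      rw [norm_mul, norm_mul, norm_pow, norm_pow, nn, n4]
    have h2 : ‖4 * (n : ℂ) ^ 2 * T ^ 2‖ ≤ ‖D‖ + ‖D - 4 * (n : ℂ) ^ 2 * T ^ 2‖ := by
      have : 4 * (n : ℂ) ^ 2 * T ^ 2 = D - (D - 4 * (n : ℂ) ^ 2 * T ^ 2) := by ring
      calc ‖4 * (n : ℂ) ^ 2 * T ^ 2‖ = ‖D - (D - 4 * (n : ℂ) ^ 2 * T ^ 2)‖ := by rw [← this]
        _ ≤ _ := norm_sub_le _ _
    have h3 : 4 * n ^ 2 * 1 ≤ 4 * n ^ 2 * ‖T‖ ^ 2 := mul_le_mul_of_nonneg_left hT4 (by positivity)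
    linarith
  have N4 : ‖(5 - 8 * κ * I : ℂ)‖ ≤ 6 := by
    calc ‖(5 - 8 * κ * I : ℂ)‖ ≤ ‖(5 : ℂ)‖ + ‖(8 * κ * I : ℂ)‖ := norm_sub_le _ _
      _ = 5 + 8 * κ := by rw [n5, norm_mul, norm_mul, n8, nκ, Complex.norm_I, mul_one]
      _ ≤ 6 := by linarith
  have N5 : ‖4 * (n : ℂ) ^ 2 * (1 + 4 * a) + 5 - 8 * κ * I‖ * ‖D‖ ≤ 4 * n ^ 2 * (3 / 5 * κ) + 12 := by
    rw [← norm_mul]
    have e : (4 * (n : ℂ) ^ 2 * (1 + 4 * a) + 5 - 8 * κ * I) * D =
        4 * (n : ℂ) ^ 2 * (D * (1 + 4 * a) + (5 - 8 * κ * I) * T ^ 2) +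
          (5 - 8 * κ * I) * (D - 4 * (n : ℂ) ^ 2 * T ^ 2) := by ring
    rw [e]
    calc _ ≤ ‖4 * (n : ℂ) ^ 2 * (D * (1 + 4 * a) + (5 - 8 * κ * I) * T ^ 2)‖ +
          ‖(5 - 8 * κ * I) * (D - 4 * (n : ℂ) ^ 2 * T ^ 2)‖ := norm_add_le _ _
      _ ≤ 4 * n ^ 2 * (3 / 5 * κ) + 6 * 2 := by
          have w1 : ‖4 * (n : ℂ) ^ 2 * (D * (1 + 4 * a) + (5 - 8 * κ * I) * T ^ 2)‖ ≤
              4 * n ^ 2 * (3 / 5 * κ) := by
            rw [norm_mul, norm_mul, norm_pow, nn, n4]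
            exact mul_le_mul_of_nonneg_left N2 (by positivity)
          have w2 : ‖(5 - 8 * κ * I) * (D - 4 * (n : ℂ) ^ 2 * T ^ 2)‖ ≤ 6 * 2 := by
            rw [norm_mul]
            exact mul_le_mul N4 N1 (norm_nonneg _) (by norm_num)
          linarith
      _ = _ := by ring
  have hn2 : (10000 : ℝ) ^ 2 ≤ n ^ 2 := pow_le_pow_left₀ (by norm_num) hn 2
  by_contra hcon
  push Not at hcon
  have h6 : 4 / 5 * κ * (4 * n ^ 2 - 2) ≤ ‖4 * (n : ℂ) ^ 2 * (1 + 4 * a) + 5 - 8 * κ * I‖ * ‖D‖ := by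
    apply mul_le_mul hcon.le N3 _ (norm_nonneg _)
    linarith
  have h7 : 195 * n ≤ κ * n * n := mul_le_mul_of_nonneg_right hκn2 hn0.le
  have e7 : κ * n * n = κ * n ^ 2 := by ring
  rw [e7] at h7
  have e8 : 4 / 5 * κ * (4 * n ^ 2 - 2) = 16 / 5 * (κ * n ^ 2) - 8 / 5 * κ := by ring
  have e9 : 4 * n ^ 2 * (3 / 5 * κ) + 12 = 12 / 5 * (κ * n ^ 2) + 12 := by ring
  rw [e9] at N5
  rw [e8] at h6
  linarith

/-! ### The divergent continued fraction -/

/-- The real sequence `κ_j`, of size about `2 / √(10000 + j)`. -/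
noncomputable def kk : ℕ → ℝ
  | 0 => 1 / 50
  | (j + 1) => kk j * (2 * (10000 + j)) / (2 * (10000 + j) + 1)

lemma kk_succ (j : ℕ) : kk (j + 1) * (2 * (10000 + j) + 1) = kk j * (2 * (10000 + j)) := by
  have : (0 : ℝ) < 2 * (10000 + j) + 1 := by positivity
  rw [kk]; field_simp

lemma kk_pos (j : ℕ) : 0 < kk j := by
  induction j with
  | zero => norm_num [kk]
  | succ j ih => rw [kk]; positivity

lemma kk_diff (j : ℕ) : (kk j - kk (j + 1)) * (2 * (10000 + j) + 1) = kk j := by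
  have := kk_succ j
  linarith

lemma kk_anti (j : ℕ) : kk (j + 1) ≤ kk j := by
  have h1 := kk_diff j
  have h2 := kk_pos j
  by_contra hcon
  push Not at hcon
  have h3 : (0 : ℝ) < 2 * (10000 + j) + 1 := by positivity
  have := mul_pos (sub_pos.mpr hcon) h3
  linarith

lemma kk_le (j : ℕ) : kk j ≤ 1 / 50 := by
  induction j with
  | zero => norm_num [kk]
  | succ j ih => exact (kk_anti j).trans ih

lemma kk_inv (j : ℕ) : 39 / 10 ≤ kk j ^ 2 * (10000 + j - 1 / 4) := by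
  induction j with
  | zero => norm_num [kk]
  | succ j ih =>
    have h1 := kk_succ j
    set m : ℝ := 10000 + j with hm
    have hm0 : 10000 ≤ m := by rw [hm]; linarith [Nat.cast_nonneg (α := ℝ) j]
    have h2 : kk (j + 1) ^ 2 * (2 * m + 1) ^ 2 = kk j ^ 2 * (4 * m ^ 2) := by
      calc kk (j + 1) ^ 2 * (2 * m + 1) ^ 2 = (kk (j + 1) * (2 * m + 1)) ^ 2 := by ring
        _ = _ := by rw [h1]; ring
    have h3 : (10000 + ((j + 1 : ℕ) : ℝ) - 1 / 4) = m + 3 / 4 := by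
      rw [hm]; push_cast; ring
    rw [h3]
    have h4 : (kk j ^ 2 * (m - 1 / 4)) * (2 * m + 1) ^ 2 ≤ (kk (j + 1) ^ 2 * (m + 3 / 4)) * (2 * m + 1) ^ 2 := by
      have e : (kk (j + 1) ^ 2 * (m + 3 / 4)) * (2 * m + 1) ^ 2 = kk j ^ 2 * (4 * m ^ 2) * (m + 3 / 4) := by
        calc _ = (kk (j + 1) ^ 2 * (2 * m + 1) ^ 2) * (m + 3 / 4) := by ring
          _ = _ := by rw [h2]
      rw [e]
      have : kk j ^ 2 * ((m - 1 / 4) * (2 * m + 1) ^ 2) ≤ kk j ^ 2 * ((4 * m ^ 2) * (m + 3 / 4)) := by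
        apply mul_le_mul_of_nonneg_left _ (sq_nonneg _)
        nlinarith
      linarith
    have h5 := le_of_mul_le_mul_right h4 (by positivity)
    linarith

/-- `μ_j = (M_j + κ_j + i) / (M_j - κ_j - i)` with `M_j = 10000 + j`. -/
noncomputable def mu (j : ℕ) : ℂ :=
  ((10000 + j : ℂ) + kk j + I) / ((10000 + j : ℂ) - kk j - I)

/-- The elements of the divergent continued fraction. -/
noncomputable def el (j : ℕ) : ℂ :=
  -(mu (j + 1) * (mu (j + 2) - 1) * (mu j - 1)) /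
    ((mu j * mu (j + 1) - 1) * (mu (j + 1) * mu (j + 2) - 1))

lemma den_ne (m k : ℝ) : (m : ℂ) - k - I ≠ 0 := by
  intro h
  have := congrArg Complex.im h
  simp at this

lemma mu_eq (j : ℕ) {m : ℝ} (hm : m = 10000 + j) : mu j = ((m : ℂ) + kk j + I) / ((m : ℂ) - kk j - I) := by
  rw [mu, hm]; push_cast; rfl

lemma el_mem (j : ℕ) : el j ∈ E0 ∧ mu j * mu (j + 1) - 1 ≠ 0 := by
  set n : ℝ := 10000 + j + 1 with hn
  have hj0 : (0 : ℝ) ≤ j := Nat.cast_nonneg j
  set κ := kk (j + 1) with hκ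
  set α := kk j - κ with hα
  set β := κ - kk (j + 2) with hβ
  set T : ℂ := 1 - κ * I with hT
  have hα1 : α * (2 * n - 2) = κ := by
    have h1 := kk_succ j
    rw [hα, hn]
    rw [← hκ] at h1
    linarith
  have hβ1 : β * (2 * n + 1) = κ := by
    have h1 := kk_diff (j + 1)
    rw [hβ, hn]
    push_cast at h1
    rw [← hκ] at h1
    linarith
  have hκn : 39 / 10 ≤ κ ^ 2 * n := by
    have h1 := kk_inv (j + 1)
    rw [← hκ] at h1
    push_cast at h1
    have h2 : κ ^ 2 * (10000 + (j + 1) - 1 / 4) ≤ κ ^ 2 * n := by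
      apply mul_le_mul_of_nonneg_left _ (sq_nonneg _)
      rw [hn]; linarith
    linarith
  have hI : I ^ 2 = -1 := Complex.I_sq
  have m0 := mu_eq j (m := n - 1) (by rw [hn]; ring)
  have m1 := mu_eq (j + 1) (m := n) (by rw [hn]; push_cast; ring)
  have m2 := mu_eq (j + 2) (m := n + 1) (by rw [hn]; push_cast; ring)
  have k0 : kk j = κ + α := by rw [hα]; ring
  have k2 : kk (j + 2) = κ - β := by rw [hβ]; ring
  rw [k0] at m0
  rw [← hκ] at m1
  rw [k2] at m2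
  have hd0 := den_ne (n - 1) (κ + α)
  have hd1 := den_ne n κ
  have hd2 := den_ne (n + 1) (κ - β)
  set d0 : ℂ := ((n - 1 : ℝ) : ℂ) - ((κ + α : ℝ) : ℂ) - I with hd0'
  set d1 : ℂ := (n : ℂ) - (κ : ℂ) - I with hd1'
  set d2 : ℂ := ((n + 1 : ℝ) : ℂ) - ((κ - β : ℝ) : ℂ) - I with hd2'
  set L1 : ℂ := ((n : ℂ) - 1) * T + n * (T - α * I) with hL1
  set L2 : ℂ := n * (T + β * I) + (n + 1) * T with hL2
  have hn0 : 10000 ≤ n := by rw [hn]; linarith
  have hL1ne : L1 ≠ 0 := by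
    intro h
    have h1 := congrArg Complex.re h
    have e : L1 = ((2 * n - 1 : ℝ) : ℂ) + ((-(2 * n - 1) * κ - n * α : ℝ) : ℂ) * I := by
      rw [hL1, hT]; push_cast; ring
    rw [e, Complex.add_re, Complex.ofReal_re, Complex.re_ofReal_mul, Complex.I_re, mul_zero, add_zero,
      Complex.zero_re] at h1
    linarith
  have hL2ne : L2 ≠ 0 := by
    intro h
    have h1 := congrArg Complex.re h
    have e : L2 = ((2 * n + 1 : ℝ) : ℂ) + ((-(2 * n + 1) * κ + n * β : ℝ) : ℂ) * I := by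
      rw [hL2, hT]; push_cast; ring
    rw [e, Complex.add_re, Complex.ofReal_re, Complex.re_ofReal_mul, Complex.I_re, mul_zero, add_zero,
      Complex.zero_re] at h1
    linarith
  have f0 : mu j - 1 = 2 * I * (T - α * I) / d0 := by
    rw [m0, eq_div_iff hd0, sub_mul, div_mul_cancel₀ _ hd0, hd0', hT]
    push_cast
    linear_combination (2 * (κ : ℂ) + 2 * α) * hI
  have f2 : mu (j + 2) - 1 = 2 * I * (T + β * I) / d2 := by
    rw [m2, eq_div_iff hd2, sub_mul, div_mul_cancel₀ _ hd2, hd2', hT]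
    push_cast
    linear_combination (2 * (κ : ℂ) - 2 * β) * hI
  have g0 : mu j * mu (j + 1) - 1 = 2 * I * L1 / (d0 * d1) := by
    rw [m0, m1, div_mul_div_comm, eq_div_iff (mul_ne_zero hd0 hd1), sub_mul,
      div_mul_cancel₀ _ (mul_ne_zero hd0 hd1), hd0', hd1', hL1, hT]
    push_cast
    linear_combination (4 * (n : ℂ) * κ + 2 * n * α - 2 * κ) * hI
  have g2 : mu (j + 1) * mu (j + 2) - 1 = 2 * I * L2 / (d1 * d2) := by
    rw [m1, m2, div_mul_div_comm, eq_div_iff (mul_ne_zero hd1 hd2), sub_mul,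
      div_mul_cancel₀ _ (mul_ne_zero hd1 hd2), hd1', hd2', hL2, hT]
    push_cast
    linear_combination (4 * (n : ℂ) * κ - 2 * n * β + 2 * κ) * hI
  have hI0 : I ≠ 0 := Complex.I_ne_zero
  refine ⟨?_, ?_⟩
  · apply mem_core hn0 (kk_pos (j + 1)) (kk_le (j + 1)) hκn hα1 hβ1 hT
    rw [← hL1, ← hL2, el, f0, f2, g0, g2, m1]
    have e1 : (n : ℂ) ^ 2 + T ^ 2 = ((n : ℂ) + κ + I) * d1 := by
      rw [hd1', hT]
      linear_combination (κ ^ 2 + 1 : ℂ) * hI
    rw [e1]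
    field_simp
  · rw [g0]
    exact div_ne_zero (mul_ne_zero (mul_ne_zero two_ne_zero hI0) hL1ne) (mul_ne_zero hd0 hd1)

lemma normsq_re_im (x y : ℝ) : ‖(x : ℂ) + (y : ℂ) * I‖ ^ 2 = x ^ 2 + y ^ 2 := by
  rw [← Complex.normSq_eq_norm_sq, Complex.normSq_add_mul_I]

lemma mu_norms (j : ℕ) :
    ‖mu j‖ ^ 2 * ((10000 + j - kk j) ^ 2 + 1) = (10000 + j + kk j) ^ 2 + 1 := by
  set m : ℝ := 10000 + j with hm
  have h := mu_eq j hm
  have hd := den_ne m (kk j)
  have e1 : ‖(m : ℂ) - kk j - I‖ ^ 2 = (m - kk j) ^ 2 + 1 := by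
    have := normsq_re_im (m - kk j) (-1)
    rw [← neg_one_sq (R := ℝ), ← this]
    congr 2
    push_cast; ring
  have e2 : ‖(m : ℂ) + kk j + I‖ ^ 2 = (m + kk j) ^ 2 + 1 := by
    have := normsq_re_im (m + kk j) 1
    rw [one_pow] at this
    rw [← this]
    congr 2
    push_cast; ring
  rw [← e1, ← e2, ← mul_pow, ← norm_mul, h, div_mul_cancel₀ _ hd]

lemma mu_norm_ge (j : ℕ) : 1 ≤ ‖mu j‖ := by
  by_contra hcon
  push Not at hcon
  have h1 : ‖mu j‖ ^ 2 < 1 := pow_lt_one₀ (norm_nonneg _) hcon (by norm_num)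
  have h2 := mu_norms j
  have hk := kk_pos j
  have hj : (0 : ℝ) ≤ j := Nat.cast_nonneg j
  have h3 : ‖mu j‖ ^ 2 * ((10000 + j - kk j) ^ 2 + 1) ≤ 1 * ((10000 + j - kk j) ^ 2 + 1) :=
    mul_le_mul_of_nonneg_right h1.le (by positivity)
  have h4 : (0 : ℝ) < (10000 + j) * kk j := by positivity
  nlinarith

lemma mu_norm_le (j : ℕ) : ‖mu j‖ ^ 2 * (10000 + j) ≤ 10000 + j + 5 * kk j := by
  have h2 := mu_norms j
  have hk := kk_pos j
  have hk1 := kk_le j
  have hj : (0 : ℝ) ≤ j := Nat.cast_nonneg j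
  set m : ℝ := 10000 + j with hm
  have hm0 : 10000 ≤ m := by linarith
  set D := (m - kk j) ^ 2 + 1 with hD
  have hD0 : 0 < D := by positivity
  have e : (m + kk j) ^ 2 + 1 = D + 4 * m * kk j := by rw [hD]; ring
  rw [e] at h2
  -- 4 m^2 ≤ 5 D
  have h5 : 4 * m ^ 2 ≤ 5 * D := by
    rw [hD]; nlinarith
  have h6 : (‖mu j‖ ^ 2 * m) * D ≤ (m + 5 * kk j) * D := by
    have : (‖mu j‖ ^ 2 * m) * D = (D + 4 * m * kk j) * m := by rw [← h2]; ring
    rw [this]
    have := mul_le_mul_of_nonneg_right h5 hk.le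
    linarith
  exact le_of_mul_le_mul_right h6 hD0

lemma mu_sub_one (j : ℕ) : (mu j - 1) * ((10000 + j : ℂ) - kk j - I) = 2 * (kk j + I) := by
  have hm : (10000 + j : ℝ) = 10000 + j := rfl
  have hd := den_ne (10000 + j : ℝ) (kk j)
  push_cast at hd
  rw [mu, sub_mul, div_mul_cancel₀ _ hd]
  ring

lemma mu_sub_norm (j : ℕ) : ‖mu j - 1‖ * (10000 + j) ≤ 3 := by
  have h := congrArg norm (mu_sub_one j)
  rw [norm_mul, norm_mul] at h
  have hk := kk_pos j
  have hk1 := kk_le j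
  have hj : (0 : ℝ) ≤ j := Nat.cast_nonneg j
  have n2 : ‖(2 : ℂ)‖ = 2 := by simp
  have h1 : ‖(kk j : ℂ) + I‖ ≤ 51 / 50 := by
    calc ‖(kk j : ℂ) + I‖ ≤ ‖(kk j : ℂ)‖ + ‖I‖ := norm_add_le _ _
      _ = kk j + 1 := by rw [Complex.norm_real, Real.norm_of_nonneg hk.le, Complex.norm_I]
      _ ≤ 51 / 50 := by linarith
  have h2 : 10000 + j - kk j ≤ ‖(10000 + j : ℂ) - kk j - I‖ := by
    have q := Complex.abs_re_le_norm ((10000 + j : ℂ) - kk j - I)
    have q2 := le_abs_self ((10000 + j : ℂ) - kk j - I).re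
    have q3 : ((10000 + j : ℂ) - kk j - I).re = 10000 + j - kk j := by simp
    rw [q3] at q q2
    linarith
  have h3 : ‖mu j - 1‖ * (10000 + j - kk j) ≤ 51 / 25 := by
    calc ‖mu j - 1‖ * (10000 + j - kk j) ≤ ‖mu j - 1‖ * ‖(10000 + j : ℂ) - kk j - I‖ :=
          mul_le_mul_of_nonneg_left h2 (norm_nonneg _)
      _ = 2 * ‖(kk j : ℂ) + I‖ := by rw [h, n2]
      _ ≤ 51 / 25 := by linarith
  have h4 : ‖mu j - 1‖ ≤ 1 := by
    have : ‖mu j - 1‖ * 9999 ≤ ‖mu j - 1‖ * (10000 + j - kk j) :=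
      mul_le_mul_of_nonneg_left (by linarith) (norm_nonneg _)
    linarith
  have h5 : ‖mu j - 1‖ * kk j ≤ 1 * (1 / 50) := mul_le_mul h4 hk1 hk.le (by norm_num)
  linarith

lemma mu_sub_im (j : ℕ) : 1 ≤ (mu j - 1).im * (10000 + j) := by
  have hk := kk_pos j
  have hk1 := kk_le j
  have hj : (0 : ℝ) ≤ j := Nat.cast_nonneg j
  set m : ℝ := 10000 + j with hm
  have hm0 : 10000 ≤ m := by linarith
  have h := mu_sub_one j
  have e1 : ((10000 + j : ℂ) - kk j - I) = ((m - kk j : ℝ) : ℂ) + ((-1 : ℝ) : ℂ) * I := by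
    rw [hm]; push_cast; ring
  have e2 : (2 * (kk j + I) : ℂ) = ((2 * kk j : ℝ) : ℂ) + ((2 : ℝ) : ℂ) * I := by
    push_cast; ring
  have e3 : mu j - 1 = ((mu j - 1).re : ℂ) + ((mu j - 1).im : ℂ) * I := (Complex.re_add_im _).symm
  set x := (mu j - 1).re with hx
  set y := (mu j - 1).im with hy
  rw [e3, e1, e2] at h
  have hr := congrArg Complex.re h
  have hi := congrArg Complex.im h
  simp only [Complex.mul_re, Complex.mul_im, Complex.add_re, Complex.add_im, Complex.ofReal_re,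
    Complex.ofReal_im, Complex.I_re, Complex.I_im, mul_zero, mul_one, zero_add, add_zero,
    sub_self] at hr hi
  -- hr : x*(m-k) + y = 2k ; hi : -x + y (m-k) = 2
  have h1 : y * ((m - kk j) ^ 2 + 1) = 2 * m := by
    linear_combination (m - kk j) * hi + hr
  have h2 : 0 < (m - kk j) ^ 2 + 1 := by positivity
  have h3 : 1 * ((m - kk j) ^ 2 + 1) ≤ (y * m) * ((m - kk j) ^ 2 + 1) := by
    have : (y * m) * ((m - kk j) ^ 2 + 1) = 2 * m * m := by rw [← h1]; ring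
    rw [this]
    nlinarith
  exact le_of_mul_le_mul_right h3 h2

/-- The products `μ_1 μ_2 ⋯ μ_j`. -/
noncomputable def pp : ℕ → ℂ
  | 0 => 1
  | (j + 1) => pp j * mu (j + 1)

lemma pp_ge (j : ℕ) : 1 ≤ ‖pp j‖ := by
  induction j with
  | zero => simp [pp]
  | succ j ih =>
    rw [pp, norm_mul]
    exact one_le_mul_of_one_le_of_one_le ih (mu_norm_ge _)

lemma pp_le (j : ℕ) : ‖pp j‖ ^ 2 ≤ 2 - 30 * kk (j + 1) := by
  induction j with
  | zero =>
    have := kk_le 1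
    simp only [pp, norm_one, zero_add, one_pow]
    linarith
  | succ j ih =>
    have h1 := mu_norm_le (j + 1)
    have h2 := kk_diff (j + 1)
    have h3 := kk_anti (j + 1)
    have hk := kk_pos (j + 1)
    set m : ℝ := 10000 + ((j + 1 : ℕ) : ℝ) with hm
    have hm0 : 10000 ≤ m := by
      rw [hm]; linarith [Nat.cast_nonneg (α := ℝ) (j + 1)]
    have hmp : 0 < m := by linarith
    rw [pp, norm_mul, mul_pow]
    have h4 : (‖pp j‖ ^ 2 * ‖mu (j + 1)‖ ^ 2) * m ≤ (2 - 30 * kk (j + 1 + 1)) * m := by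
      calc (‖pp j‖ ^ 2 * ‖mu (j + 1)‖ ^ 2) * m = ‖pp j‖ ^ 2 * (‖mu (j + 1)‖ ^ 2 * m) := by ring
        _ ≤ ‖pp j‖ ^ 2 * (m + 5 * kk (j + 1)) := mul_le_mul_of_nonneg_left h1 (by positivity)
        _ ≤ (2 - 30 * kk (j + 1)) * (m + 5 * kk (j + 1)) :=
            mul_le_mul_of_nonneg_right ih (by positivity)
        _ ≤ (2 - 30 * kk (j + 1 + 1)) * m := by
            have h5 : 0 ≤ (kk (j + 1) - kk (j + 1 + 1)) * (10 * m - 10) :=
              mul_nonneg (by linarith) (by linarith)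
            have h6 : 0 ≤ kk (j + 1) * kk (j + 1) := by positivity
            linarith
    exact le_of_mul_le_mul_right h4 hmp

lemma pp_le_two (j : ℕ) : ‖pp j‖ ≤ 2 := by
  by_contra hcon
  push Not at hcon
  have h1 := pp_le j
  have h2 := kk_pos (j + 1)
  nlinarith

lemma pp_not_tendsto (G : ℂ) : ¬ Tendsto pp atTop (𝓝 G) := by
  intro h
  rw [Metric.tendsto_atTop] at h
  obtain ⟨K0, hK⟩ := h (1 / 100) (by norm_num)
  obtain ⟨k, hk⟩ : ∃ k : ℕ, k = K0 + 10000 := ⟨_, rfl⟩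
  have hk0 : (10000 : ℝ) ≤ k := by
    rw [hk]; push_cast; linarith [Nat.cast_nonneg (α := ℝ) K0]
  have hkp : (0 : ℝ) < k := by linarith
  have hP : ∀ i, ‖pp (k + i) - G‖ ≤ 1 / 100 := by
    intro i
    have := hK (k + i) (by omega)
    rw [dist_eq_norm] at this
    exact this.le
  have hG : 99 / 100 ≤ ‖G‖ := by
    have h1 := hP 0
    have h2 := pp_ge (k + 0)
    have h3 : ‖pp (k + 0)‖ ≤ ‖pp (k + 0) - G‖ + ‖G‖ := by
      calc ‖pp (k + 0)‖ = ‖(pp (k + 0) - G) + G‖ := by rw [sub_add_cancel]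
        _ ≤ _ := norm_add_le _ _
    linarith
  have hm : ∀ i, ‖mu (k + i + 1) - 1‖ ≤ 3 / k := by
    intro i
    rw [le_div_iff₀ hkp]
    have h1 := mu_sub_norm (k + i + 1)
    have h2 : ‖mu (k + i + 1) - 1‖ * k ≤ ‖mu (k + i + 1) - 1‖ * (10000 + ((k + i + 1 : ℕ) : ℝ)) := by
      apply mul_le_mul_of_nonneg_left _ (norm_nonneg _)
      push_cast
      linarith [Nat.cast_nonneg (α := ℝ) i]
    linarith
  have hs1 : ∑ i ∈ Finset.range k, (pp (k + i + 1) - pp (k + i)) = pp (k + k) - pp k := by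
    have := Finset.sum_range_sub (fun i => pp (k + i)) k
    simpa [add_assoc] using this
  have hs2 : ∑ i ∈ Finset.range k, (pp (k + i + 1) - pp (k + i)) =
      G * ∑ i ∈ Finset.range k, (mu (k + i + 1) - 1) +
        ∑ i ∈ Finset.range k, (pp (k + i) - G) * (mu (k + i + 1) - 1) := by
    rw [Finset.mul_sum, ← Finset.sum_add_distrib]
    apply Finset.sum_congr rfl
    intro i _
    rw [pp]
    ring
  have hs3 : ‖∑ i ∈ Finset.range k, (pp (k + i) - G) * (mu (k + i + 1) - 1)‖ ≤ 3 / 100 := by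
    calc _ ≤ ∑ i ∈ Finset.range k, ‖(pp (k + i) - G) * (mu (k + i + 1) - 1)‖ := norm_sum_le _ _
      _ ≤ ∑ i ∈ Finset.range k, (1 / 100 * (3 / (k : ℝ))) := by
          apply Finset.sum_le_sum
          intro i _
          rw [norm_mul]
          exact mul_le_mul (hP i) (hm i) (norm_nonneg _) (by norm_num)
      _ = 3 / 100 := by
          rw [Finset.sum_const, Finset.card_range, nsmul_eq_mul]
          field_simp
  set S := ∑ i ∈ Finset.range k, (mu (k + i + 1) - 1) with hS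
  have hs4 : ‖G‖ * ‖S‖ ≤ 5 / 100 := by
    rw [← norm_mul]
    have e : G * S = (pp (k + k) - G) - (pp (k + 0) - G) -
        ∑ i ∈ Finset.range k, (pp (k + i) - G) * (mu (k + i + 1) - 1) := by
      rw [hs1] at hs2
      rw [add_zero]
      linear_combination -hs2
    rw [e]
    calc _ ≤ ‖(pp (k + k) - G) - (pp (k + 0) - G)‖ +
          ‖∑ i ∈ Finset.range k, (pp (k + i) - G) * (mu (k + i + 1) - 1)‖ := norm_sub_le _ _
      _ ≤ (‖pp (k + k) - G‖ + ‖pp (k + 0) - G‖) + 3 / 100 := by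
          gcongr
          exact norm_sub_le _ _
      _ ≤ 5 / 100 := by linarith [hP k, hP 0]
  have hs5 : 1 / 3 ≤ S.im := by
    rw [hS, Complex.im_sum]
    calc (1 / 3 : ℝ) = ∑ i ∈ Finset.range k, (1 / (3 * (k : ℝ))) := by
          rw [Finset.sum_const, Finset.card_range, nsmul_eq_mul]
          field_simp
      _ ≤ _ := by
          apply Finset.sum_le_sum
          intro i hi
          have hi' := Finset.mem_range.mp hi
          have h1 := mu_sub_im (k + i + 1)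
          have h2 : (10000 + ((k + i + 1 : ℕ) : ℝ)) ≤ 3 * k := by
            have : ((i + 1 : ℕ) : ℝ) ≤ k := by exact_mod_cast hi'
            push_cast at this ⊢
            linarith
          have h3 : 0 ≤ (mu (k + i + 1) - 1).im := by
            by_contra hcon
            push Not at hcon
            have h4 : (0 : ℝ) < 10000 + ((k + i + 1 : ℕ) : ℝ) := by positivity
            have := mul_pos (neg_pos.mpr hcon) h4
            linarith
          rw [div_le_iff₀ (by positivity)]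
          have := mul_le_mul_of_nonneg_left h2 h3
          linarith
  have hs6 : S.im ≤ ‖S‖ := (le_abs_self _).trans (Complex.abs_im_le_norm S)
  have hs7 : 99 / 100 * (1 / 3) ≤ ‖G‖ * ‖S‖ := mul_le_mul hG (by linarith) (by norm_num) (norm_nonneg _)
  linarith

/-- Numerators of the approximants (index shifted by one). -/
noncomputable def AA (a : ℕ → ℂ) : ℕ → ℂ
  | 0 => 1
  | 1 => 0
  | (j + 2) => AA a (j + 1) + a j * AA a j

/-- Denominators of the approximants (index shifted by one). -/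
noncomputable def BB (a : ℕ → ℂ) : ℕ → ℂ
  | 0 => 0
  | 1 => 1
  | (j + 2) => BB a (j + 1) + a j * BB a j

lemma fold_eq {a : ℕ → ℂ} (ha : ∀ n, a n ∈ E0) (n : ℕ) : ∀ w : ℂ, 2 * w + 1 ∈ Om →
    BB a (n + 1) + BB a n * w ≠ 0 ∧
    ((List.range n).map a).foldr step (w : OnePoint ℂ) =
      (((AA a (n + 1) + AA a n * w) / (BB a (n + 1) + BB a n * w) : ℂ) : OnePoint ℂ) := by
  induction n with
  | zero =>
    intro w _
    simp [AA, BB]
  | succ n ih =>
    intro w hw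
    obtain ⟨h1, h2, h3, _⟩ := step_Om (ha n) hw
    obtain ⟨h4, h5⟩ := ih _ h3
    have e1 : BB a (n + 1 + 1) + BB a (n + 1) * w = (BB a (n + 1) + BB a n * (a n / (1 + w))) * (1 + w) := by
      rw [BB]; field_simp; ring
    have e2 : AA a (n + 1 + 1) + AA a (n + 1) * w = (AA a (n + 1) + AA a n * (a n / (1 + w))) * (1 + w) := by
      rw [AA]; field_simp; ring
    refine ⟨?_, ?_⟩
    · rw [e1]; exact mul_ne_zero h4 h1
    · rw [List.range_succ, List.map_append, List.foldr_append, List.map_cons, List.map_nil,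
        List.foldr_cons, List.foldr_nil, h2, h5, e1, e2, mul_div_mul_right _ _ h1]

/-- Auxiliary solution of the three term recurrence. -/
noncomputable def xx : ℕ → ℂ
  | 0 => 1
  | (j + 1) => xx j * ((mu j - 1) / (mu j * mu (j + 1) - 1))

lemma xx_rec (j : ℕ) : xx (j + 2) = xx (j + 1) + el j * xx j := by
  have h1 := (el_mem j).2
  have h2 := (el_mem (j + 1)).2
  rw [xx, xx, el]
  field_simp
  ring

lemma xp_rec (j : ℕ) : xx (j + 2) * pp (j + 2) = xx (j + 1) * pp (j + 1) + el j * (xx j * pp j) := by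
  have h1 := (el_mem j).2
  have h2 := (el_mem (j + 1)).2
  rw [xx, xx, pp, pp, el]
  field_simp
  ring

lemma BB_eq (j : ℕ) : BB el j * (xx 1 * (pp 1 - 1)) = xx j * (pp j - 1) ∧
    BB el (j + 1) * (xx 1 * (pp 1 - 1)) = xx (j + 1) * (pp (j + 1) - 1) := by
  induction j with
  | zero => simp [BB, pp]
  | succ j ih =>
    refine ⟨ih.2, ?_⟩
    rw [BB]
    linear_combination ih.2 + el j * ih.1 - xp_rec j + xx_rec j

lemma AA_eq (j : ℕ) : AA el j * (1 - pp 1) = xx j * (pp j - pp 1) ∧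
    AA el (j + 1) * (1 - pp 1) = xx (j + 1) * (pp (j + 1) - pp 1) := by
  induction j with
  | zero => simp [AA, pp, xx]
  | succ j ih =>
    refine ⟨ih.2, ?_⟩
    rw [AA]
    linear_combination ih.2 + el j * ih.1 - xp_rec j + pp 1 * xx_rec j

lemma mu_ne_one (j : ℕ) : mu j - 1 ≠ 0 := by
  intro h
  have := mu_sub_im j
  rw [h] at this
  simp at this
  linarith

lemma xx1_ne : xx 1 ≠ 0 := by
  rw [xx, xx, one_mul]
  exact div_ne_zero (mu_ne_one 0) (el_mem 0).2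

lemma pp1_ne : pp 1 - 1 ≠ 0 := by
  rw [pp, pp, one_mul]
  exact mu_ne_one 1

/-- the approximants -/
lemma approx_eq (n : ℕ) : ∃ f : ℂ, approximant el n = (f : OnePoint ℂ) ∧
    f * (pp (n + 1) - 1) = -xx 1 * (pp (n + 1) - pp 1) := by
  obtain ⟨h1, h2⟩ := fold_eq (a := el) (fun n => (el_mem n).1) n 0 zero_Om
  refine ⟨_, h2, ?_⟩
  rw [mul_zero, add_zero] at h1
  rw [mul_zero, mul_zero, add_zero, add_zero]
  have h3 := (BB_eq n).2
  have h4 := (AA_eq n).2
  have h5 : xx (n + 1) ≠ 0 := by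
    intro h
    rw [h, zero_mul] at h3
    exact mul_ne_zero h1 (mul_ne_zero xx1_ne pp1_ne) h3
  have h6 : AA el (n + 1) / BB el (n + 1) * BB el (n + 1) = AA el (n + 1) := div_mul_cancel₀ _ h1
  apply mul_left_cancel₀ h5
  linear_combination (-(AA el (n + 1) / BB el (n + 1))) * h3 + (xx 1 * (pp 1 - 1)) * h6 - xx 1 * h4

lemma not_conv : ¬ Converges el := by
  rintro ⟨l, hl⟩
  choose f hf1 hf2 using approx_eq
  have hfl : Tendsto f atTop (𝓝 l) := by
    have h1 : approximant el = fun n => ((f n : ℂ) : OnePoint ℂ) := funext hf1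
    rw [h1] at hl
    exact (OnePoint.isOpenEmbedding_coe.isInducing.tendsto_nhds_iff).mpr hl
  set K := -xx 1 with hK
  have hK0 : K ≠ 0 := neg_ne_zero.mpr xx1_ne
  have hP : ∀ n, pp (n + 1) * (f n - K) = f n - K * pp 1 := by
    intro n
    linear_combination hf2 n
  have hn1 : Tendsto (fun n => f n - K * pp 1) atTop (𝓝 (l - K * pp 1)) := hfl.sub_const _
  have hn2 : Tendsto (fun n => f n - K) atTop (𝓝 (l - K)) := hfl.sub_const _
  by_cases hlK : l = K
  · have h3 : Tendsto (fun n => pp (n + 1) * (f n - K)) atTop (𝓝 0) := by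
      have h4 : Tendsto (fun n => 2 * ‖f n - K‖) atTop (𝓝 0) := by
        rw [hlK, sub_self] at hn2
        have := hn2.norm.const_mul 2
        simpa using this
      apply squeeze_zero_norm _ h4
      intro n
      rw [norm_mul]
      exact mul_le_mul_of_nonneg_right (pp_le_two _) (norm_nonneg _)
    have h5 : (fun n => pp (n + 1) * (f n - K)) = fun n => f n - K * pp 1 := funext hP
    rw [h5] at h3
    have h6 := tendsto_nhds_unique hn1 h3
    rw [hlK] at h6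
    have h7 : K * (pp 1 - 1) = 0 := by linear_combination -h6
    exact mul_ne_zero hK0 pp1_ne h7
  · have hlK' : l - K ≠ 0 := sub_ne_zero.mpr hlK
    have h3 := hn1.div hn2 hlK'
    have h4 : Tendsto (fun n => pp (n + 1)) atTop (𝓝 ((l - K * pp 1) / (l - K))) := by
      apply h3.congr'
      have h5 := hn2.eventually_ne hlK'
      filter_upwards [h5] with n hn
      simp only [Pi.div_apply]
      rw [div_eq_iff hn]
      exact (hP n).symm
    exact pp_not_tendsto _ ((tendsto_add_atTop_iff_nat 1).mp h4)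

theorem result : ∃ E : Set ℂ, BoundedValues E ∧ ¬ IsConvergenceSet E :=
  ⟨E0, bounded_E0, fun h => not_conv (h el fun n => (el_mem n).1)⟩

end Pool.Agent.Results.MP_e522d8_an.TypeA
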