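import Mathlib
import Pool.Agent.Helper625.CB5

/-!
# MP_e522d8_an, Q2 (type B): a convergence set whose value set is unbounded

Let `a = 1 + i/3`, `b = (-1 + 3i)/2` and `E = {b} ∪ {a + t : 0 < t ≤ 1/5000}`.

* For the word `a, b, b, b, a` the map `s_a s_b s_b s_b s_a` is `z ↦ c + 1/z` with
  `c = (9 + 3i)/4`, which has the value `∞` at `0`.  The letter `a` is not in `E`; the word
  `a + t, b, b, b, a + t` has the value `(1 + c t)/(2 t + c t²)`, so that the values are unbounded.
* Every infinite continued fraction with elements in `E` converges.  There are thirteen closed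
  discs (one of them a half plane), given by hermitian forms `H j`, such that every letter maps each
  disc into a disc of the family.  All transitions are strict, except for one parabolic cycle of
  length six.  For the vector `(B_{n-1}, B_n)` of denominators this says that
  `H j (v_{n+1}) ≥ H (σ j) (v_n)`, with a gain for the strict transitions (`step_all`).  A run
  through the parabolic cycle has a gain as well (`block`, `growth`), so that all forms tend to
  infinity (`LB_tendsto`), that is the radii of the nested discs tend to zero.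
-/

set_option autoImplicit false

namespace Pool.Agent.Results.MP_e522d8_an.TypeB

open Filter Topology Complex
open Pool.Agent.Helper625.CB

/-- The map `s_b(w) = 1 / (b + w)` on the Riemann sphere `OnePoint ℂ`, with the conventions
`1 / 0 = ∞` and `1 / ∞ = 0`. -/
noncomputable def step (b : ℂ) (w : OnePoint ℂ) : OnePoint ℂ :=
  w.elim ((0 : ℂ) : OnePoint ℂ) fun z =>
    if b + z = 0 then OnePoint.infty else ((1 / (b + z) : ℂ) : OnePoint ℂ)

/-- The value of the finite type-B continued fraction whose elements are the list `L`: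
`s_{b_1} ∘ ⋯ ∘ s_{b_n} (0)`. -/
noncomputable def cfValue (L : List ℂ) : OnePoint ℂ := L.foldr step ((0 : ℂ) : OnePoint ℂ)

/-- The `n`-th approximant of the infinite type-B continued fraction with elements
`b 0, b 1, b 2, …` (these are `b_1, b_2, b_3, …` of the problem). -/
noncomputable def approximant (b : ℕ → ℂ) (n : ℕ) : OnePoint ℂ := cfValue ((List.range n).map b)

/-- The value set `V_B(E)`. -/
def ValueSet (E : Set ℂ) : Set (OnePoint ℂ) :=
  {v | ∃ L : List ℂ, L ≠ [] ∧ (∀ x ∈ L, x ∈ E) ∧ v = cfValue L}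

/-- The value set is a bounded subset of `ℂ` (in particular `∞` is not a value). -/
def BoundedValues (E : Set ℂ) : Prop :=
  ∃ R : ℝ, ∀ v ∈ ValueSet E, ∃ z : ℂ, v = (z : OnePoint ℂ) ∧ ‖z‖ ≤ R

/-- The infinite continued fraction converges to a finite limit. -/
def Converges (b : ℕ → ℂ) : Prop :=
  ∃ l : ℂ, Tendsto (approximant b) atTop (𝓝 (l : OnePoint ℂ))

/-- `E` is a type-B convergence set. -/
def IsConvergenceSet (E : Set ℂ) : Prop := ∀ b : ℕ → ℂ, (∀ n, b n ∈ E) → Converges b

/-- Sanity check: the value of the one term continued fraction is `1 / b`. -/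
lemma cfValue_singleton (b : ℂ) (hb : b ≠ 0) : cfValue [b] = ((1 / b : ℂ) : OnePoint ℂ) := by
  show (if b + (0 : ℂ) = 0 then OnePoint.infty else ((1 / (b + 0) : ℂ) : OnePoint ℂ)) = _
  rw [add_zero, if_neg hb]

/-- point with homogeneous coordinates `(u, w)` -/
noncomputable def pt (u w : ℂ) : OnePoint ℂ :=
  open Classical in if w = 0 then OnePoint.infty else ((u / w : ℂ) : OnePoint ℂ)

lemma step_pt (b u w : ℂ) (h : u ≠ 0 ∨ w ≠ 0) : step b (pt u w) = pt w (b * w + u) := by
  unfold pt
  by_cases hw : w = 0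
  · have hu : u ≠ 0 := by rcases h with h | h <;> tauto
    rw [if_pos hw, hw, mul_zero, zero_add, if_neg hu, zero_div]
    rfl
  · rw [if_neg hw]
    show (if b + u / w = 0 then OnePoint.infty else ((1 / (b + u / w) : ℂ) : OnePoint ℂ)) = _
    have e1 : b + u / w = (b * w + u) / w := by field_simp
    by_cases h2 : b * w + u = 0
    · rw [if_pos h2, if_pos (by rw [e1, h2, zero_div])]
    · rw [if_neg h2, if_neg (by rw [e1]; exact div_ne_zero h2 hw), e1, one_div_div]

lemma foldr_range (e : ℕ → ℂ) (n : ℕ) (u w : ℂ) (h : u ≠ 0 ∨ w ≠ 0) :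
    ((List.range n).map e).foldr step (pt u w) =
      pt ((aa e n).1 * u + (aa e n).2 * w) ((vv e n).1 * u + (vv e n).2 * w) := by
  induction n generalizing u w with
  | zero => simp [aa, vv]
  | succ n ih =>
    rw [List.range_succ, List.map_append, List.foldr_append]
    have h1 : ([n].map e).foldr step (pt u w) = pt w (e n * w + u) := by
      show step (e n) (pt u w) = _
      exact step_pt _ _ _ h
    have h2 : w ≠ 0 ∨ e n * w + u ≠ 0 := by
      by_contra hcon
      push Not at hcon
      obtain ⟨h3, h4⟩ := hcon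
      rw [h3, mul_zero, zero_add] at h4
      rcases h with h | h
      · exact h h4
      · exact h h3
    rw [h1, ih _ _ h2]
    have h3 : aa e (n + 1) = ((aa e n).2, (aa e n).1 + e n * (aa e n).2) := rfl
    have h4 : vv e (n + 1) = ((vv e n).2, (vv e n).1 + e n * (vv e n).2) := rfl
    rw [h3, h4]
    congr 1
    · ring
    · ring

lemma approximant_eq (e : ℕ → ℂ) (n : ℕ) : approximant e n = pt (aa e n).2 (vv e n).2 := by
  unfold approximant cfValue
  have h0 : ((0 : ℂ) : OnePoint ℂ) = pt 0 1 := by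
    unfold pt; rw [if_neg one_ne_zero, zero_div]
  rw [h0, foldr_range e n 0 1 (Or.inr one_ne_zero)]
  simp

lemma approximant_fin {e : ℕ → ℂ} (he : ∀ n, e n ∈ E1) {n : ℕ} (hn : 0 < n) :
    approximant e n = ((qq e n : ℂ) : OnePoint ℂ) := by
  rw [approximant_eq]
  unfold pt qq
  rw [if_neg (den_ne he hn)]

lemma isConvergenceSet_E1 : IsConvergenceSet E1 := by
  intro e he
  obtain ⟨l, hl⟩ := qq_tendsto he
  refine ⟨l, ?_⟩
  have h1 : Tendsto (fun n => ((qq e n : ℂ) : OnePoint ℂ)) atTop (𝓝 (l : OnePoint ℂ)) :=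
    (OnePoint.continuous_coe.tendsto l).comp hl
  refine h1.congr' ?_
  filter_upwards [eventually_gt_atTop 0] with n hn
  exact (approximant_fin he hn).symm

lemma lb_mem : lb ∈ E1 := Or.inl rfl

lemma la_mem {t : ℝ} (ht : 0 < t) (ht1 : t ≤ 1 / 5000) : la + t ∈ E1 := Or.inr ⟨t, ht, ht1, rfl⟩

/-- extension of a list to a sequence -/
noncomputable def ext (L : List ℂ) (n : ℕ) : ℂ := L.getD n lb

lemma ext_mem {L : List ℂ} (hL : ∀ x ∈ L, x ∈ E1) (n : ℕ) : ext L n ∈ E1 := by
  unfold ext
  rw [List.getD_eq_getElem?_getD]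
  by_cases h : n < L.length
  · rw [List.getElem?_eq_getElem h]
    exact hL _ (List.getElem_mem h)
  · rw [List.getElem?_eq_none (by omega)]
    exact lb_mem

lemma cfValue_ext (L : List ℂ) : cfValue L = approximant (ext L) L.length := by
  unfold approximant
  congr 1
  apply List.ext_getElem
  · simp
  · intro i h1 h2
    simp [ext, List.getD_eq_getElem?_getD, h1]

lemma values_finite : ∀ v ∈ ValueSet E1, ∃ z : ℂ, v = (z : OnePoint ℂ) := by
  rintro v ⟨L, hL0, hL, rfl⟩
  rw [cfValue_ext]
  exact ⟨_, approximant_fin (ext_mem hL) (List.length_pos_iff.mpr hL0)⟩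

/-- the special values -/
lemma special {t : ℝ} (ht : 0 < t) (ht1 : t ≤ 1 / 5000) :
    ∃ z : ℂ, (z : OnePoint ℂ) ∈ ValueSet E1 ∧ 1 / (4 * t) ≤ ‖z‖ := by
  set L : List ℂ := [la + t, lb, lb, lb, la + t] with hL
  have hLE : ∀ x ∈ L, x ∈ E1 := by
    intro x hx
    rw [hL] at hx
    simp only [List.mem_cons, List.not_mem_nil, or_false] at hx
    rcases hx with rfl | rfl | rfl | rfl | rfl
    · exact la_mem ht ht1
    · exact lb_mem
    · exact lb_mem
    · exact lb_mem
    · exact la_mem ht ht1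
  have hA : (aa (ext L) 5).2 = 1 + cc * t := by
    have h := block5 1 0 (t : ℂ) (t : ℂ)
    have h4 := block4 1 0 (t : ℂ)
    have e1 : (aa (ext L) 5).2 = ((1 + (la + t) * 0) + lb * (0 + lb * (1 + (la + t) * 0))) + (la + t) *
        ((0 + lb * (1 + (la + t) * 0)) + lb * ((1 + (la + t) * 0) + lb * (0 + lb * (1 + (la + t) * 0)))) := rfl
    rw [e1, h4, h]; ring
  have hB : (vv (ext L) 5).2 = t + t + cc * t * t := by
    have h := block5 0 1 (t : ℂ) (t : ℂ)
    have h4 := block4 0 1 (t : ℂ)
    have e1 : (vv (ext L) 5).2 = ((0 + (la + t) * 1) + lb * (1 + lb * (0 + (la + t) * 1))) + (la + t) *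
        ((1 + lb * (0 + (la + t) * 1)) + lb * ((0 + (la + t) * 1) + lb * (1 + lb * (0 + (la + t) * 1)))) := rfl
    rw [e1, h4, h]; ring
  have hmem : cfValue L ∈ ValueSet E1 := ⟨L, by rw [hL]; simp, hLE, rfl⟩
  have hval : cfValue L = ((qq (ext L) 5 : ℂ) : OnePoint ℂ) := by
    rw [cfValue_ext]
    exact approximant_fin (ext_mem hLE) (by rw [hL]; simp)
  refine ⟨qq (ext L) 5, by rw [← hval]; exact hmem, ?_⟩
  have hB0 : (vv (ext L) 5).2 ≠ 0 := den_ne (ext_mem hLE) (by norm_num)
  unfold qq
  rw [norm_div, le_div_iff₀ (norm_pos_iff.mpr hB0), hA, hB]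
  have nt : ‖(t : ℂ)‖ = t := by rw [Complex.norm_real, Real.norm_eq_abs, abs_of_pos ht]
  have ncc := norm_cc
  have h1 : ‖(t : ℂ) + t + cc * t * t‖ ≤ 3 * t := by
    calc ‖(t : ℂ) + t + cc * t * t‖ ≤ ‖(t : ℂ) + t‖ + ‖cc * t * t‖ := norm_add_le _ _
      _ ≤ (‖(t : ℂ)‖ + ‖(t : ℂ)‖) + ‖cc‖ * ‖(t : ℂ)‖ * ‖(t : ℂ)‖ := by
          rw [norm_mul, norm_mul]; gcongr; exact norm_add_le _ _
      _ ≤ 3 * t := by
          rw [nt]
          have : ‖cc‖ * t * t ≤ 12 / 5 * t * t := by gcongr
          nlinarith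
  have h2 : 3 / 4 ≤ ‖1 + cc * t‖ := by
    have h3 : ‖cc * t‖ ≤ 1 / 4 := by
      rw [norm_mul, nt]
      nlinarith [norm_nonneg cc]
    have h4 : ‖(1 : ℂ)‖ ≤ ‖1 + cc * t‖ + ‖cc * t‖ := by
      have := norm_sub_le (1 + cc * t) (cc * t)
      rwa [add_sub_cancel_right] at this
    rw [norm_one] at h4
    linarith
  calc 1 / (4 * t) * ‖(t : ℂ) + t + cc * t * t‖ ≤ 1 / (4 * t) * (3 * t) := by gcongr
    _ = 3 / 4 := by field_simp
    _ ≤ _ := h2

lemma not_bounded : ¬ BoundedValues E1 := by
  rintro ⟨R, hR⟩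
  set t : ℝ := 1 / (5000 + 5 * |R|) with ht
  have hR0 : 0 ≤ |R| := abs_nonneg R
  have ht0 : 0 < t := by positivity
  have ht1 : t ≤ 1 / 5000 := by
    rw [ht]; exact one_div_le_one_div_of_le (by norm_num) (by linarith)
  obtain ⟨z, hz, hz2⟩ := special ht0 ht1
  obtain ⟨z', h1, h2⟩ := hR _ hz
  have h3 : z = z' := OnePoint.coe_injective h1
  rw [← h3] at h2
  have h4 : 1 / (4 * t) = (5000 + 5 * |R|) / 4 := by
    rw [ht]; field_simp
  rw [h4] at hz2
  have := le_abs_self R
  linarith

/-- **Q2 (type B) is false over `ℂ`.**  There is a type-B convergence set `E` whose value set is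
unbounded (although every value is finite). -/
theorem result : ∃ E : Set ℂ, IsConvergenceSet E ∧
    (∀ v ∈ ValueSet E, ∃ z : ℂ, v = (z : OnePoint ℂ)) ∧ ¬ BoundedValues E :=
  ⟨E1, isConvergenceSet_E1, values_finite, not_bounded⟩

end Pool.Agent.Results.MP_e522d8_an.TypeB
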